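import Pool.Agent.H14Trans.Mass

/-!
Upper bound for the number of primes in an interval, from the Brun-Hooley sieve.
-/

set_option autoImplicit false

namespace Pool.Agent.TotGap

open Finset Classical Pool.Agent.H14Trans

lemma exists_scale {a s J₀ y : ℕ} (ha : 2 ≤ a) (hs : 1 ≤ s) (h : (a ^ (2 ^ J₀)) ^ s ≤ y) :
    ∃ J, J₀ ≤ J ∧ (a ^ (2 ^ J)) ^ s ≤ y ∧ y < (a ^ (2 ^ (J + 1))) ^ s := by
  have hex : ∃ J, J₀ ≤ J ∧ y < (a ^ (2 ^ (J + 1))) ^ s := by
    refine ⟨J₀ + y, by omega, ?_⟩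
    have h1 : J₀ + y + 1 < 2 ^ (J₀ + y + 1) := Nat.lt_two_pow_self
    have h2 : 2 ^ (J₀ + y + 1) < 2 ^ (2 ^ (J₀ + y + 1)) := Nat.lt_two_pow_self
    have h3 : 2 ^ (2 ^ (J₀ + y + 1)) ≤ a ^ (2 ^ (J₀ + y + 1)) := Nat.pow_le_pow_left ha _
    have h4 : a ^ (2 ^ (J₀ + y + 1)) ≤ (a ^ (2 ^ (J₀ + y + 1))) ^ s :=
      Nat.le_self_pow (by omega) _
    omega
  have hsp := Nat.find_spec hex
  refine ⟨Nat.find hex, hsp.1, ?_, hsp.2⟩
  rcases Nat.eq_or_lt_of_le hsp.1 with h0 | h0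
  · rw [← h0]; exact h
  · obtain ⟨j, hj⟩ : ∃ j, Nat.find hex = j + 1 := ⟨Nat.find hex - 1, by omega⟩
    have := Nat.find_min hex (m := j) (by omega)
    rw [hj]
    push Not at this
    exact this (by omega)

lemma good_primes (x w : ℕ) : Good (bd 1 (x + 1) {0}) (fun _ => 1)
    ((Icc 2 w).filter Nat.Prime) := by
  refine ⟨?_, ?_, ?_, ?_⟩
  · intro b hb
    rw [mem_filter] at hb
    exact hb.2.pos
  · intro b _ s
    exact bd_periodic 1 (x + 1) {0} b s
  · intro b hb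
    rw [mem_filter] at hb
    have := card_bd (b := b) (c := 1) (e := x + 1) (n := 0) (A := {0}) (by simp) hb.2.pos
      (Nat.coprime_one_left b)
    simpa using this
  · intro b hb c hc hbc
    rw [mem_filter] at hb hc
    exact (Nat.coprime_primes hb.2 hc.2).mpr hbc

lemma lay_mass {y₀ i w : ℕ} (hy₀ : 2 ≤ y₀) :
    ∑ b ∈ lay y₀ ((Icc 2 w).filter Nat.Prime) i, (1 : ℝ) / b ≤ 16 := by
  have h2 : 2 ≤ y₀ ^ (2 ^ i) := by
    calc 2 ≤ y₀ := hy₀
      _ ≤ y₀ ^ (2 ^ i) := Nat.le_self_pow (by positivity) _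
  refine mass_le (y := y₀ ^ (2 ^ i)) ?_ ?_ h2 ?_ ?_
  · intro b hb
    simp only [lay, mem_filter] at hb
    exact hb.1.2.two_le
  · intro b hb c hc hbc
    simp only [lay, mem_filter] at hb hc
    exact (Nat.coprime_primes hb.1.2 hc.1.2).mpr hbc
  · intro b hb
    simp only [lay, mem_filter] at hb
    exact hb.2.1
  · intro b hb
    simp only [lay, mem_filter] at hb
    have := hb.2.2
    rwa [pow_succ, pow_mul] at this

lemma prod_primes_le {w : ℕ} (hw : 2 ≤ w) :
    ∏ b ∈ (Icc 2 w).filter Nat.Prime, (1 - (1 : ℝ) / b) ≤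
      2 * Real.exp 14 * (Real.log 2 / Real.log w) := by
  have h1 := prime_prod_le (u := 2) (v := w) le_rfl hw
  have hsub : (Ioc 2 w).filter Nat.Prime ⊆ (Icc 2 w).filter Nat.Prime := by
    refine filter_subset_filter _ ?_
    exact Ioc_subset_Icc_self
  rw [← prod_sdiff hsub]
  have hnn : 0 ≤ ∏ b ∈ (Ioc 2 w).filter Nat.Prime, (1 - (1 : ℝ) / b) := by
    refine prod_nonneg fun b hb => ?_
    rw [mem_filter] at hb
    have : (1 : ℝ) ≤ b := by exact_mod_cast hb.2.one_lt.le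
    rw [sub_nonneg, div_le_one (by linarith)]
    exact this
  have hle : ∏ b ∈ (Icc 2 w).filter Nat.Prime \ (Ioc 2 w).filter Nat.Prime, (1 - (1 : ℝ) / b) ≤ 1 := by
    refine prod_le_one (fun b hb => ?_) (fun b hb => ?_)
    · rw [mem_sdiff, mem_filter] at hb
      have : (1 : ℝ) ≤ b := by exact_mod_cast hb.1.2.one_lt.le
      rw [sub_nonneg, div_le_one (by linarith)]
      exact this
    · have : (0 : ℝ) ≤ 1 / (b : ℝ) := by positivity
      linarith
  calc _ ≤ 1 * ∏ b ∈ (Ioc 2 w).filter Nat.Prime, (1 - (1 : ℝ) / b) :=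
        mul_le_mul_of_nonneg_right hle hnn
    _ ≤ _ := by rw [one_mul]; exact_mod_cast h1

/-- Primes in an interval. -/
theorem bt : ∃ C : ℝ, 0 < C ∧ ∃ y₁ : ℕ, 2 ≤ y₁ ∧ ∀ x y : ℕ, y₁ ≤ y → y ≤ x →
    (#((Ioc x (x + y)).filter Nat.Prime) : ℝ) ≤ C * (y / Real.log y) := by
  obtain ⟨s₁, hs₁, H⟩ := fundamental 1 16 (by norm_num)
  obtain ⟨J₀, HJ⟩ := H 4 (by norm_num)
  refine ⟨8 * Real.exp 14 * s₁, by positivity, (4 ^ (2 ^ J₀)) ^ s₁, ?_, ?_⟩
  · calc 2 ≤ 4 := by norm_num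
      _ ≤ 4 ^ (2 ^ J₀) := Nat.le_self_pow (by positivity) _
      _ ≤ _ := Nat.le_self_pow (by omega) _
  intro x y hy hyx
  obtain ⟨J, hJ, hwy, hyw⟩ := exists_scale (a := 4) (by norm_num) (by omega) hy
  set w := 4 ^ (2 ^ J) with hw
  have hw2 : 2 ≤ w := by
    calc 2 ≤ 4 := by norm_num
      _ ≤ 4 ^ (2 ^ J) := Nat.le_self_pow (by positivity) _
  have hwley : w ≤ y := (Nat.le_self_pow (by omega) w).trans hwy
  obtain ⟨_, hN⟩ := HJ J hJ (bd 1 (x + 1) {0}) (fun _ => 1) ((Icc 2 w).filter Nat.Prime)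
    (good_primes x w) (fun b hb => by
      rw [mem_filter] at hb
      exact ⟨le_rfl, hb.2.one_lt⟩) (fun b hb => by
      rw [mem_filter, mem_Icc] at hb
      exact hb.1.2) (fun i _ => lay_mass (by norm_num))
  have hub := (hN y hwy).2
  have hcard : #((Ioc x (x + y)).filter Nat.Prime) ≤
      #((range y).filter (Sift (bd 1 (x + 1) {0}) ((Icc 2 w).filter Nat.Prime))) := by
    refine card_le_card_of_injOn (fun p => p - (x + 1)) ?_ ?_
    · intro p hp
      simp only [coe_filter, mem_Ioc] at hp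
      simp only [coe_filter, mem_range]
      refine ⟨by have := hp.1; omega, ?_⟩
      intro b hb hbad
      rw [mem_filter, mem_Icc] at hb
      obtain ⟨a, ha, hdiv⟩ := hbad
      rw [mem_singleton] at ha
      subst ha
      have e : 1 * (p - (x + 1)) + (x + 1 + 0) = p := by have := hp.1; omega
      rw [e] at hdiv
      have := (Nat.prime_dvd_prime_iff_eq hb.2 hp.2).mp hdiv
      have := hp.1
      omega
    · intro p hp q hq hpq
      simp only [coe_filter, mem_Ioc] at hp hq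
      have := hp.1
      have := hq.1
      simp only at hpq
      omega
  have hlogw : 0 < Real.log w := Real.log_pos (by exact_mod_cast (by omega : 1 < w))
  have hlogy : 0 < Real.log y := Real.log_pos (by exact_mod_cast (by omega : 1 < y))
  have hlog : Real.log y ≤ 2 * s₁ * Real.log w := by
    have h1 : (y : ℝ) ≤ (w : ℝ) ^ (2 * s₁) := by
      have : y ≤ w ^ (2 * s₁) := by
        refine hyw.le.trans ?_
        rw [pow_succ, pow_mul, ← hw, ← pow_mul]
      exact_mod_cast this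
    have h2 := Real.log_le_log (by exact_mod_cast (by omega : 0 < y)) h1
    rw [Real.log_pow] at h2
    push_cast at h2
    exact h2
  have hprod := prod_primes_le hw2
  have h3 : Real.log 2 / Real.log w ≤ 2 * s₁ / Real.log y := by
    rw [div_le_div_iff₀ hlogw hlogy]
    have hl2 : Real.log 2 ≤ 1 := by
      have := Real.log_two_lt_d9; linarith
    calc Real.log 2 * Real.log y ≤ 1 * Real.log y := by gcongr
      _ ≤ _ := by linarith
  calc (#((Ioc x (x + y)).filter Nat.Prime) : ℝ)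
      ≤ (#((range y).filter (Sift (bd 1 (x + 1) {0}) ((Icc 2 w).filter Nat.Prime))) : ℝ) := by
        exact_mod_cast hcard
    _ ≤ 2 * y * ∏ b ∈ (Icc 2 w).filter Nat.Prime, (1 - (1 : ℝ) / b) := by
        refine hub.trans (le_of_eq ?_)
        simp
    _ ≤ 2 * y * (2 * Real.exp 14 * (2 * s₁ / Real.log y)) := by
        refine mul_le_mul_of_nonneg_left (hprod.trans ?_) (by positivity)
        exact mul_le_mul_of_nonneg_left h3 (by positivity)
    _ = 8 * Real.exp 14 * s₁ * (y / Real.log y) := by ring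

end Pool.Agent.TotGap
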